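import Mathlib

/-!
Morley rank of definable subsets of a first-order structure.
-/

open FirstOrder Set

namespace Pool.Agent.MP_fcbc9a_lc

universe u

/-- `RankGe L M n X`: the inductive clause RM(X) ≥ n, read inside the structure M.
RM(X) ≥ 0 iff X is nonempty; RM(X) ≥ n + 1 iff X contains infinitely many pairwise disjoint
sets, definable with parameters, each of rank ≥ n. -/
def RankGe (L : FirstOrder.Language.{u, u}) (M : Type u) [L.Structure M] : ℕ → Set M → Prop
  | 0, X => X.Nonempty
  | n + 1, X => ∃ Y : ℕ → Set M,
      (∀ i, (univ : Set M).Definable₁ L (Y i) ∧ Y i ⊆ X ∧ RankGe L M n (Y i)) ∧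
        Pairwise fun i j => Disjoint (Y i) (Y j)

/-- The structure M has finite Morley rank: for some n, the universe of no elementary extension
of M has rank ≥ n. -/
def FiniteMorleyRank (L : FirstOrder.Language.{u, u}) (M : Type u) [L.Structure M] : Prop :=
  ∃ n : ℕ, ∀ (N : Type u) [L.Structure N],
    Nonempty (FirstOrder.Language.ElementaryEmbedding L M N) → ¬RankGe L N n univ

end Pool.Agent.MP_fcbc9a_lc
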